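import Pool.Agent.Y449.TE.Stm

/-! Limits of directions and balls which are crossed (job TE-DIR; project of helper449, proof by
helper43). -/

set_option autoImplicit false

open Set Filter Topology Metric
open scoped NNReal
open Pool.Agent.Results.MP_1cfa3b_gt.TwoEnds

universe u v

namespace Pool.Agent.Y449.TE.DIR

variable {X : Type u} [MetricSpace X]

/-- a geodesic of the bicombing joins its end points -/
lemma joined_b {b : X → X → unitInterval → X} (hb : IsCCCBicombing b) (x z : X) (S : Set X)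
    (h : ∀ v, b x z v ∈ S) : JoinedIn S x z := by
  have hc : Continuous fun v : unitInterval => b x z v := by
    have : Continuous fun v : unitInterval => ((x, z, v) : X × X × unitInterval) := by fun_prop
    exact hb.continuous.comp this
  exact ⟨⟨⟨fun v => b x z v, hc⟩, hb.zero x z, hb.one x z⟩, h⟩

lemma dist_b {b : X → X → unitInterval → X} (hb : IsCCCBicombing b) (x z : X)
    (v : unitInterval) : dist x (b x z v) = (v : ℝ) * dist x z := by
  have := hb.speed x z 0 v
  rw [hb.zero] at this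
  rw [this]
  simp [abs_of_nonneg (unitInterval.nonneg v)]

theorem main : S_DIR.{u} := by
  intro X _ _ b hb o q R y hR0 hto hnj hRq
  let U : Ultrafilter ℕ := hyperfilter ℕ
  have hU : (U : Filter ℕ) ≤ atTop := Nat.hyperfilter_le_atTop
  have hfar : Tendsto (fun n => dist o (y n)) U atTop := hto.mono_left hU
  obtain ⟨ξ, hξ, hξ0, hξlim⟩ := exists_ray hb U o y hfar
  refine ⟨ξ, hξ, hξ0, ?_, ?_⟩
  · have hex : ∀ n : ℕ, ∃ v : unitInterval, ¬ JoinedIn (closedBall q R)ᶜ o (y n) →
        b o (y n) v ∈ closedBall q R := by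
      intro n
      by_cases h : ∃ v : unitInterval, b o (y n) v ∈ closedBall q R
      · obtain ⟨v, hv⟩ := h
        exact ⟨v, fun _ => hv⟩
      · push Not at h
        refine ⟨0, fun h2 => ?_⟩
        exact absurd (joined_b hb o (y n) _ h) h2
    choose v hv using hex
    have hv' : ∀ᶠ n in (U : Filter ℕ), dist (b o (y n) (v n)) q ≤ R := by
      filter_upwards [hnj.filter_mono hU] with n hn
      exact mem_closedBall.1 (hv n hn)
    set T : ℕ → ℝ := fun n => (v n : ℝ) * dist o (y n) with hT
    have hTm : ∀ᶠ n in (U : Filter ℕ), T n ∈ Icc (0 : ℝ) (dist o q + R) := by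
      filter_upwards [hv'] with n hn
      have h1 := dist_b hb o (y n) (v n)
      have h2 := dist_triangle o q (b o (y n) (v n))
      rw [dist_comm q] at h2
      constructor
      · exact mul_nonneg (unitInterval.nonneg _) dist_nonneg
      · show (v n : ℝ) * dist o (y n) ≤ _
        linarith
    have hle : ((U.map T : Ultrafilter ℝ) : Filter ℝ) ≤ 𝓟 (Icc (0 : ℝ) (dist o q + R)) := by
      rw [le_principal_iff]
      exact hTm
    obtain ⟨τ, hτ, hτlim⟩ := isCompact_Icc.ultrafilter_le_nhds (U.map T) hle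
    have hτlim' : Tendsto T U (𝓝 τ) := hτlim
    obtain ⟨t, ht⟩ : ∃ t : ℝ≥0, (t : ℝ) = τ := ⟨⟨τ, hτ.1⟩, rfl⟩
    refine ⟨t, ?_⟩
    rw [mem_closedBall]
    have hl1 := (hξlim t).dist (tendsto_const_nhds (x := q))
    have hl2 : Tendsto (fun n => |T n - τ| + R) U (𝓝 (|τ - τ| + R)) :=
      ((hτlim'.sub_const τ).abs).add_const R
    rw [sub_self, abs_zero, zero_add] at hl2
    refine le_of_tendsto_of_tendsto hl1 hl2 ?_
    filter_upwards [hv', hfar.eventually (eventually_ge_atTop ((t : ℝ) + 1))] with n h1 h2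
    have ht0 : (0 : ℝ) ≤ t := t.2
    have hpos : 0 < dist o (y n) := by linarith
    have hmem : (t : ℝ) / dist o (y n) ∈ Icc (0 : ℝ) 1 := by
      constructor
      · positivity
      · rw [div_le_one hpos]; linarith
    rw [Set.projIcc_of_mem zero_le_one hmem]
    have h3 := hb.speed o (y n) ⟨_, hmem⟩ (v n)
    have h4 : |(((⟨_, hmem⟩ : unitInterval) : ℝ)) - (v n : ℝ)| * dist o (y n) = |T n - τ| := by
      rw [← ht, abs_sub_comm]
      show |(v n : ℝ) - (t : ℝ) / dist o (y n)| * dist o (y n) = |(v n : ℝ) * dist o (y n) - t|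
      rw [← abs_of_pos hpos, ← abs_mul, abs_of_pos hpos, sub_mul, div_mul_cancel₀ _ hpos.ne']
    rw [h4] at h3
    calc dist (b o (y n) ⟨_, hmem⟩) q
        ≤ dist (b o (y n) ⟨_, hmem⟩) (b o (y n) (v n)) + dist (b o (y n) (v n)) q :=
          dist_triangle _ _ _
      _ ≤ |T n - τ| + R := by rw [h3]; linarith
  · intro s hs m
    have hlim := (hξlim s).dist (tendsto_const_nhds (x := ξ s))
    rw [dist_self] at hlim
    have hev : ∀ᶠ n in (U : Filter ℕ), m ≤ n ∧ (s : ℝ) + 1 ≤ dist o (y n) ∧
        dist (b o (y n) (projIcc (0 : ℝ) 1 zero_le_one ((s : ℝ) / dist o (y n)))) (ξ s) < 1 := by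
      filter_upwards [(eventually_ge_atTop m).filter_mono hU,
        hfar.eventually (eventually_ge_atTop ((s : ℝ) + 1)),
        hlim.eventually (gt_mem_nhds zero_lt_one)] with n h1 h2 h3
      exact ⟨h1, h2, h3⟩
    obtain ⟨n, hn, hd, hp⟩ := hev.exists
    refine ⟨n, hn, ?_⟩
    have hs0 : (0 : ℝ) ≤ s := s.2
    have hpos : 0 < dist o (y n) := by linarith
    have hmem : (s : ℝ) / dist o (y n) ∈ Icc (0 : ℝ) 1 := by
      constructor
      · positivity
      · rw [div_le_one hpos]; linarith
    rw [Set.projIcc_of_mem zero_le_one hmem] at hp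
    obtain ⟨σ, hσ⟩ : ∃ σ : unitInterval, (σ : ℝ) = (s : ℝ) / dist o (y n) := ⟨⟨_, hmem⟩, rfl⟩
    have hσe : (⟨_, hmem⟩ : unitInterval) = σ := Subtype.ext hσ.symm
    have hp' : dist (b o (y n) σ) (ξ s) < 1 := by rw [← hσe]; exact hp
    have hσ1 : σ < 1 := by
      rw [← Subtype.coe_lt_coe, hσ]
      show (s : ℝ) / dist o (y n) < 1
      rw [div_lt_one hpos]; linarith
    have hξo : dist o (ξ s) = s := by
      have := hξ.1 0 s
      rw [hξ0] at this
      rw [this]
      simp
    refine JoinedIn.trans (y := b o (y n) σ) ?_ ?_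
    · apply joined_b hb
      intro v
      rw [mem_compl_iff, mem_closedBall, not_le]
      have h1 := dist_b hb (ξ s) (b o (y n) σ) v
      have h2 : (v : ℝ) * dist (ξ s) (b o (y n) σ) ≤ 1 * dist (ξ s) (b o (y n) σ) :=
        mul_le_mul_of_nonneg_right (unitInterval.le_one v) dist_nonneg
      rw [dist_comm (ξ s) (b o (y n) σ)] at h2
      have h3 := dist_triangle o (b (ξ s) (b o (y n) σ) v) (ξ s)
      have h4 := dist_triangle o q (b (ξ s) (b o (y n) σ) v)
      rw [dist_comm q] at h4
      rw [dist_comm (b (ξ s) (b o (y n) σ) v) (ξ s), h1, dist_comm (ξ s) (b o (y n) σ)] at h3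
      linarith
    · apply joined_b hb
      intro v
      have h1 := hb.consistent o (y n) σ 1 hσ1
      rw [hb.one] at h1
      have h2 : b (b o (y n) σ) (y n) v ∈ b o (y n) '' Icc σ 1 := by
        rw [← h1]; exact mem_range_self v
      obtain ⟨w, hw, hw2⟩ := h2
      rw [← hw2, mem_compl_iff, mem_closedBall, not_le]
      have h3 := dist_b hb o (y n) w
      have h4 : (σ : ℝ) * dist o (y n) ≤ (w : ℝ) * dist o (y n) :=
        mul_le_mul_of_nonneg_right (Subtype.coe_le_coe.2 hw.1) dist_nonneg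
      rw [hσ, div_mul_cancel₀ _ hpos.ne'] at h4
      have h5 := dist_triangle o q (b o (y n) w)
      rw [dist_comm q] at h5
      linarith

end Pool.Agent.Y449.TE.DIR
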