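import Pool.Agent.Y449.TE.Stm

/-! A ray from every point in every class (job TE-EQUIV; project of helper449, proof by
helper43). -/

set_option autoImplicit false

open Set Filter Topology Metric
open scoped NNReal
open Pool.Agent.Results.MP_1cfa3b_gt.TwoEnds

universe u v

namespace Pool.Agent.Y449.TE.EQUIV

theorem main : S_EQUIV.{u} := by
  intro X _ _ b hb ξ x hξ
  let U : Ultrafilter ℕ := hyperfilter ℕ
  have hU : (U : Filter ℕ) ≤ atTop := Nat.hyperfilter_le_atTop
  set y : ℕ → X := fun n => ξ (n : ℝ≥0) with hy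
  have hdist : ∀ n : ℕ, dist (ξ 0) (y n) = n := by
    intro n
    rw [hy]
    simp only
    rw [hξ.1]
    simp
  have hlow : ∀ n : ℕ, (n : ℝ) + (-dist x (ξ 0)) ≤ dist x (y n) := by
    intro n
    have h2 := dist_triangle (ξ 0) x (y n)
    rw [dist_comm (ξ 0) x, hdist] at h2
    linarith
  have hupp : ∀ n : ℕ, dist x (y n) ≤ n + dist x (ξ 0) := by
    intro n
    have h2 := dist_triangle x (ξ 0) (y n)
    rw [hdist] at h2
    linarith
  have hfar : Tendsto (fun n => dist x (y n)) U atTop := by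
    have h1 : Tendsto (fun n : ℕ => (n : ℝ) + (-dist x (ξ 0))) U atTop :=
      (tendsto_natCast_atTop_atTop.mono_left hU).atTop_add tendsto_const_nhds
    exact tendsto_atTop_mono hlow h1
  obtain ⟨η, hη, hη0, hηlim⟩ := exists_ray hb U x y hfar
  refine ⟨η, hη, hη0, dist x (ξ 0) + 1, fun t => ?_⟩
  have ht0 : (0 : ℝ) ≤ t := t.2
  set d0 := dist x (ξ 0) with hd0
  have hd0' : 0 ≤ d0 := dist_nonneg
  have hlim := (hηlim t).dist (tendsto_const_nhds (x := ξ t))
  rw [dist_comm]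
  refine le_of_tendsto hlim ?_
  filter_upwards [hfar.eventually (eventually_ge_atTop ((t : ℝ) + 1)),
    hfar.eventually (eventually_ge_atTop ((t : ℝ) * d0 + 1)),
    (eventually_gt_atTop (0 : ℕ)).filter_mono hU] with n h1 h2 hnpos
  have hpos : 0 < dist x (y n) := by linarith
  have hmem : (t : ℝ) / dist x (y n) ∈ Icc (0 : ℝ) 1 := by
    constructor
    · positivity
    · rw [div_le_one hpos]; linarith
  rw [Set.projIcc_of_mem zero_le_one hmem]
  set τ : unitInterval := ⟨(t : ℝ) / dist x (y n), hmem⟩ with hτ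
  have hτv : (τ : ℝ) = (t : ℝ) / dist x (y n) := rfl
  have hc := hb.conical x (y n) (ξ 0) (y n) τ
  rw [dist_self, mul_zero, add_zero] at hc
  have hc' : dist (b x (y n) τ) (b (ξ 0) (y n) τ) ≤ d0 := by
    refine hc.trans ?_
    have := τ.2.1
    have : (1 - (τ : ℝ)) * d0 ≤ 1 * d0 := mul_le_mul_of_nonneg_right (by linarith) hd0'
    linarith
  obtain ⟨r, hrv⟩ : ∃ r : ℝ≥0, (r : ℝ) = (τ : ℝ) * n :=
    ⟨⟨_, mul_nonneg (unitInterval.nonneg τ) (Nat.cast_nonneg n)⟩, rfl⟩
  have hr := hξ.2 (n : ℝ≥0) (by exact_mod_cast hnpos) τ r (by rw [hrv]; simp)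
  have hq : dist (b (ξ 0) (y n) τ) (ξ t) ≤ 1 := by
    have e1 : b (ξ 0) (y n) τ = ξ r := hr.symm
    rw [e1, hξ.1, hrv]
    have e2 : (τ : ℝ) * n - t = (t : ℝ) * (n - dist x (y n)) / dist x (y n) := by
      rw [hτv]
      field_simp
    rw [e2, abs_div, abs_of_pos hpos, div_le_one hpos, abs_mul, abs_of_nonneg ht0]
    have e3 : |(n : ℝ) - dist x (y n)| ≤ d0 := by
      rw [abs_le]
      constructor
      · linarith [hupp n]
      · linarith [hlow n]
    nlinarith [mul_le_mul_of_nonneg_left e3 ht0]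
  calc dist (b x (y n) τ) (ξ t) ≤ dist (b x (y n) τ) (b (ξ 0) (y n) τ)
        + dist (b (ξ 0) (y n) τ) (ξ t) := dist_triangle _ _ _
    _ ≤ d0 + 1 := by linarith

end Pool.Agent.Y449.TE.EQUIV
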