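import Pool.Agent.Y449.TE.Stm

/-!
# Project TE, job TE-SEP: finitely many rays from a point are separated by a ball
-/

set_option autoImplicit false

open Set Filter Topology Metric
open scoped NNReal
open Pool.Agent.Results.MP_1cfa3b_gt.TwoEnds

universe u v

namespace Pool.Agent.Y449.TE.SEP

variable {X : Type u} [MetricSpace X]

/-- the direction of `y` seen from `o`, at the distance `r` -/
noncomputable def dir (b : X → X → unitInterval → X) (o : X) (r : ℝ≥0) (y : X) : X :=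
  b o y (Set.projIcc (0 : ℝ) 1 zero_le_one ((r : ℝ) / dist o y))

theorem projIcc_div {r s : ℝ} (hr : 0 ≤ r) (hs : 0 < s) (hrs : r ≤ s) :
    ((Set.projIcc (0 : ℝ) 1 zero_le_one (r / s) : unitInterval) : ℝ) * s = r := by
  rw [Set.projIcc_of_mem zero_le_one ⟨by positivity, by rw [div_le_one hs]; exact hrs⟩]
  show r / s * s = r
  rw [div_mul_cancel₀ _ hs.ne']

theorem dir_ray {b : X → X → unitInterval → X} {o : X} {ξ : ℝ≥0 → X} (hξ : IsRay b ξ)
    (h0 : ξ 0 = o) {r s : ℝ≥0} (hs : 0 < s) (hrs : r ≤ s) : dir b o r (ξ s) = ξ r := by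
  have hd : dist o (ξ s) = s := by
    rw [← h0, hξ.1]
    simp
  unfold dir
  rw [hd, ← h0]
  refine (hξ.2 s hs _ r ?_).symm
  exact (projIcc_div (NNReal.coe_nonneg r) (by exact_mod_cast hs) (by exact_mod_cast hrs)).symm

/-- distinct rays from a point diverge -/
theorem diverge {b : X → X → unitInterval → X} (hb : IsCCCBicombing b) {o : X}
    {ξ η : ℝ≥0 → X} (hξ : IsRay b ξ) (hξ0 : ξ 0 = o) (hη : IsRay b η) (hη0 : η 0 = o)
    (hne : ξ ≠ η) : ∀ᶠ T : ℝ≥0 in atTop, 3 ≤ dist (ξ T) (η T) := by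
  obtain ⟨t0, ht0⟩ := Function.ne_iff.mp hne
  have hδ : 0 < dist (ξ t0) (η t0) := dist_pos.mpr ht0
  have ht : t0 ≠ 0 := by
    rintro rfl
    exact ht0 (hξ0.trans hη0.symm)
  have htpos : 0 < t0 := pos_iff_ne_zero.mpr ht
  have htR : (0 : ℝ) < t0 := by exact_mod_cast htpos
  filter_upwards [eventually_ge_atTop t0,
    eventually_ge_atTop (Real.toNNReal (3 * t0 / dist (ξ t0) (η t0)))] with T hT1 hT2
  have hTpos : 0 < T := lt_of_lt_of_le htpos hT1
  have hTR : (0 : ℝ) < T := by exact_mod_cast hTpos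
  have hT1R : (t0 : ℝ) ≤ T := by exact_mod_cast hT1
  have hT2R : 3 * t0 / dist (ξ t0) (η t0) ≤ T := by
    have h1 : ((Real.toNNReal (3 * t0 / dist (ξ t0) (η t0)) : ℝ≥0) : ℝ) ≤ T := by
      exact_mod_cast hT2
    exact (Real.le_coe_toNNReal _).trans h1
  rw [div_le_iff₀ hδ] at hT2R
  have hmem : (t0 : ℝ) / T ∈ unitInterval := ⟨by positivity, by rw [div_le_one hTR]; exact hT1R⟩
  have hr : (t0 : ℝ) = (⟨(t0 : ℝ) / T, hmem⟩ : unitInterval) * T := by
    show (t0 : ℝ) = t0 / T * T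
    rw [div_mul_cancel₀ _ hTR.ne']
  have e1 := hξ.2 T hTpos ⟨_, hmem⟩ t0 hr
  have e2 := hη.2 T hTpos ⟨_, hmem⟩ t0 hr
  have h1 := hb.conical (ξ 0) (ξ T) (η 0) (η T) ⟨_, hmem⟩
  rw [← e1, ← e2, hξ0, hη0, dist_self, mul_zero, zero_add] at h1
  have h2 : dist (ξ t0) (η t0) ≤ (t0 : ℝ) / T * dist (ξ T) (η T) := h1
  have h3 : dist (ξ t0) (η t0) * T ≤ t0 * dist (ξ T) (η T) := by
    have := mul_le_mul_of_nonneg_right h2 hTR.le
    have e : (t0 : ℝ) / T * dist (ξ T) (η T) * T = t0 * dist (ξ T) (η T) := by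
      field_simp
    rwa [e] at this
  have h4 : (t0 : ℝ) * 3 ≤ t0 * dist (ξ T) (η T) := by
    nlinarith
  exact le_of_mul_le_mul_left h4 htR

/-- far points have the direction of a ray -/
theorem near_ray [ProperSpace X] {b : X → X → unitInterval → X} (hb : IsCCCBicombing b) (o : X)
    (r : ℝ≥0) : ∃ R : ℝ, (r : ℝ) ≤ R ∧ ∀ y : X, R < dist o y →
      ∃ ζ : ℝ≥0 → X, IsRay b ζ ∧ ζ 0 = o ∧ dist (dir b o r y) (ζ r) < 1 := by
  by_contra hcon
  push Not at hcon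
  have h1 : ∀ n : ℕ, ∃ y : X, (r : ℝ) + n < dist o y ∧
      ∀ ζ : ℝ≥0 → X, IsRay b ζ → ζ 0 = o → 1 ≤ dist (dir b o r y) (ζ r) := by
    intro n
    exact hcon ((r : ℝ) + n) (by linarith [show (0 : ℝ) ≤ n from Nat.cast_nonneg n])
  choose y hy1 hy2 using h1
  have ht : Tendsto (fun n => dist o (y n)) atTop atTop := by
    refine tendsto_atTop_mono (fun n => ?_) tendsto_natCast_atTop_atTop
    have := hy1 n
    have := NNReal.coe_nonneg r
    linarith
  have ht2 : Tendsto (fun n => dist o (y n)) (hyperfilter ℕ : Filter ℕ) atTop :=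
    ht.mono_left Nat.hyperfilter_le_atTop
  obtain ⟨ζ, hζ, hζ0, hlim⟩ := exists_ray hb (hyperfilter ℕ) o y ht2
  have h2 := (Metric.tendsto_nhds.mp (hlim r)) 1 one_pos
  obtain ⟨n, hn⟩ := h2.exists
  exact absurd hn (not_lt.mpr (hy2 n ζ hζ hζ0))

/-- **TE-SEP** -/
theorem main : Pool.Agent.Y449.TE.S_SEP.{u} := by
  intro X _ _ b hb o hfin
  have h1 : ∀ᶠ T : ℝ≥0 in atTop, ∀ ξ ∈ {ξ : ℝ≥0 → X | IsRay b ξ ∧ ξ 0 = o},
      ∀ η ∈ {ξ : ℝ≥0 → X | IsRay b ξ ∧ ξ 0 = o}, ξ ≠ η → 3 ≤ dist (ξ T) (η T) := by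
    rw [eventually_all_finite hfin]
    intro ξ hξ
    rw [eventually_all_finite hfin]
    intro η hη
    by_cases hne : ξ = η
    · exact Eventually.of_forall fun T h => absurd hne h
    · exact (diverge hb hξ.1 hξ.2 hη.1 hη.2 hne).mono fun T h _ => h
  obtain ⟨r, hr1, hr2⟩ := (h1.and (eventually_gt_atTop 0)).exists
  obtain ⟨R, hR1, hR2⟩ := near_ray hb o r
  have hr2R : (0 : ℝ) < r := by exact_mod_cast hr2
  refine ⟨R, by linarith, ?_⟩
  rintro ξ η hξ hξ0 hη hη0 hne s t hs ht ⟨γ, hγ⟩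
  have hγR : ∀ v, R < dist o (γ v) := by
    intro v
    have := hγ v
    rw [Set.mem_compl_iff, mem_closedBall, not_le, dist_comm] at this
    exact this
  have hcont : Continuous fun v => dist (dir b o r (γ v)) (ξ r) := by
    have hq : Continuous fun v => (r : ℝ) / dist o (γ v) := by
      refine continuous_const.div (continuous_const.dist γ.continuous) ?_
      intro v
      have := hγR v
      linarith
    have h2 : Continuous fun v => ((o, γ v, Set.projIcc (0 : ℝ) 1 zero_le_one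
        ((r : ℝ) / dist o (γ v))) : X × X × unitInterval) :=
      continuous_const.prodMk (γ.continuous.prodMk (continuous_projIcc.comp hq))
    exact (hb.continuous.comp h2).dist continuous_const
  have hrs : r ≤ s := by
    have : (r : ℝ) ≤ s := by linarith
    exact_mod_cast this
  have hrt : r ≤ t := by
    have : (r : ℝ) ≤ t := by linarith
    exact_mod_cast this
  have h0 : dist (dir b o r (γ 0)) (ξ r) = 0 := by
    rw [γ.source, dir_ray hξ hξ0 (lt_of_lt_of_le hr2 hrs) hrs, dist_self]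
  have h3 : 3 ≤ dist (dir b o r (γ 1)) (ξ r) := by
    rw [γ.target, dir_ray hη hη0 (lt_of_lt_of_le hr2 hrt) hrt]
    exact hr1 η ⟨hη, hη0⟩ ξ ⟨hξ, hξ0⟩ (Ne.symm hne)
  obtain ⟨v, hv⟩ := mem_range_of_exists_le_of_exists_ge (c := (3 / 2 : ℝ)) hcont
    ⟨0, by rw [h0]; norm_num⟩ ⟨1, by linarith⟩
  have hv' : dist (dir b o r (γ v)) (ξ r) = 3 / 2 := hv
  obtain ⟨ζ, hζ, hζ0, hζ1⟩ := hR2 (γ v) (hγR v)
  by_cases hζξ : ζ = ξ
  · rw [hζξ, hv'] at hζ1
    norm_num at hζ1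
  · have h4 := hr1 ζ ⟨hζ, hζ0⟩ ξ ⟨hξ, hξ0⟩ hζξ
    have h5 := dist_triangle_left (ζ r) (ξ r) (dir b o r (γ v))
    linarith

end Pool.Agent.Y449.TE.SEP
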