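import Pool.Agent.Y449.TE.Stm2
import Pool.Agent.Y449.TE.SEP

/-!
Project TE: an isolated ray is separated from the other rays by a ball
(helper449, with the lemmas of helper903 in `SEP.lean`).
-/

set_option autoImplicit false

open Set Filter Topology Metric
open scoped NNReal
open Pool.Agent.Results.MP_1cfa3b_gt.TwoEnds

universe u v

namespace Pool.Agent.Y449.TE.SEPI

open Pool.Agent.Y449.TE.SEP

theorem main : S_SEPI.{u} := by
  intro X _ _ b hb o ξ hξ hξ0 hI
  obtain ⟨r, hr2, hr1⟩ := hI
  obtain ⟨R, hR1, hR2⟩ := near_ray hb o r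
  have hr2R : (0 : ℝ) < r := by exact_mod_cast hr2
  refine ⟨R, by linarith, ?_⟩
  rintro η hη hη0 hne s t hs ht ⟨γ, hγ⟩
  have hγR : ∀ v, R < dist o (γ v) := by
    intro v
    have := hγ v
    rw [Set.mem_compl_iff, mem_closedBall, not_le, dist_comm] at this
    exact this
  have hcont : Continuous fun v => dist (dir b o r (γ v)) (ξ r) := by
    have hq : Continuous fun v => (r : ℝ) / dist o (γ v) := by
      refine continuous_const.div (continuous_const.dist γ.continuous) ?_
      intro v
      have := hγR v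
      linarith
    have h2 : Continuous fun v => ((o, γ v, Set.projIcc (0 : ℝ) 1 zero_le_one
        ((r : ℝ) / dist o (γ v))) : X × X × unitInterval) :=
      continuous_const.prodMk (γ.continuous.prodMk (continuous_projIcc.comp hq))
    exact (hb.continuous.comp h2).dist continuous_const
  have hrs : r ≤ s := by
    have : (r : ℝ) ≤ s := by linarith
    exact_mod_cast this
  have hrt : r ≤ t := by
    have : (r : ℝ) ≤ t := by linarith
    exact_mod_cast this
  have h0 : dist (dir b o r (γ 0)) (ξ r) = 0 := by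
    rw [γ.source, dir_ray hξ hξ0 (lt_of_lt_of_le hr2 hrs) hrs, dist_self]
  have h3 : 3 ≤ dist (dir b o r (γ 1)) (ξ r) := by
    rw [γ.target, dir_ray hη hη0 (lt_of_lt_of_le hr2 hrt) hrt]
    exact hr1 η hη hη0 hne
  obtain ⟨v, hv⟩ := mem_range_of_exists_le_of_exists_ge (c := (3 / 2 : ℝ)) hcont
    ⟨0, by rw [h0]; norm_num⟩ ⟨1, by linarith⟩
  have hv' : dist (dir b o r (γ v)) (ξ r) = 3 / 2 := hv
  obtain ⟨ζ, hζ, hζ0, hζ1⟩ := hR2 (γ v) (hγR v)
  by_cases hζξ : ζ = ξ
  · rw [hζξ, hv'] at hζ1
    norm_num at hζ1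
  · have h4 := hr1 ζ hζ hζ0 hζξ
    have h5 := dist_triangle_left (ζ r) (ξ r) (dir b o r (γ v))
    linarith

end Pool.Agent.Y449.TE.SEPI
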