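import Pool.Agent.Y449.TE.CORE

/-!
Project TE: three rays, two of them isolated (helper449).
-/

set_option autoImplicit false

open Set Filter Topology Metric
open scoped NNReal
open Pool.Agent.Results.MP_1cfa3b_gt.TwoEnds

universe u v

namespace Pool.Agent.Y449.TE.THREEI

theorem near {X : Type u} [MetricSpace X] {b : X → X → unitInterval → X}
    (hb : IsCCCBicombing b) {o q : X} {r σ : ℝ≥0 → X} (hr : IsRay b r) (hr0 : r 0 = o)
    (hσ : IsRay b σ) (hσ0 : σ 0 = o) {T R0 t : ℝ≥0} {C R : ℝ} (hR0 : 0 < R0) (hT : R0 ≤ T)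
    (hC : dist (r T) q ≤ C) (ht : dist (σ t) q ≤ R) (hTT : (R0 : ℝ) * (2 * (R + C)) < 3 * T) :
    dist (σ R0) (r R0) < 3 := by
  have hT0 : 0 < T := lt_of_lt_of_le hR0 hT
  have hT0' : (0 : ℝ) < T := by exact_mod_cast hT0
  have h1 : dist (σ t) (r T) ≤ R + C := by
    have := dist_triangle (σ t) q (r T)
    rw [dist_comm q (r T)] at this
    linarith
  have h2 : dist (σ T) (σ t) ≤ R + C := by
    rw [hσ.1]
    have e1 : dist o (σ t) = t := by rw [← hσ0, hσ.1]; simp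
    have e2 : dist o (r T) = T := by rw [← hr0, hr.1]; simp
    have h3 := abs_dist_sub_le (r T) (σ t) o
    rw [dist_comm (r T) o, dist_comm (σ t) o, e1, e2, dist_comm (r T) (σ t)] at h3
    exact h3.trans h1
  have h3 : dist (σ T) (r T) ≤ 2 * (R + C) := by
    have := dist_triangle (σ T) (σ t) (r T)
    linarith
  have h4 := ISO2.ray_le hb hσ hr (hσ0.trans hr0.symm) hT hT0
  refine lt_of_le_of_lt h4 ?_
  have h5 : ((R0 : ℝ) / T) * dist (σ T) (r T) ≤ ((R0 : ℝ) / T) * (2 * (R + C)) := by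
    gcongr
  refine lt_of_le_of_lt h5 ?_
  rw [div_mul_eq_mul_div, div_lt_iff₀ hT0']
  exact hTT

theorem main (h1 : S_SEPI.{u}) (h2 : S_DIR.{u}) : S_THREEI.{u, v} := by
  intro X _ _ b hb G _ _ _ _ o r hr hr1 hr2 hI0 hI1
  obtain ⟨Ra, hRa, hsa⟩ := h1 X b hb o (r 0) (hr1 0) (hr2 0) hI0
  obtain ⟨Rb, hRb, hsb⟩ := h1 X b hb o (r 1) (hr1 1) (hr2 1) hI1
  set R := max Ra Rb with hRdef
  have hR : 0 < R := lt_of_lt_of_le hRa (le_max_left _ _)
  have sep0 : ∀ j : Fin 3, j ≠ 0 → ∀ s t : ℝ≥0, R < s → R < t →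
      ¬ JoinedIn (closedBall o R)ᶜ (r 0 s) (r j t) := by
    intro j hj s t hs ht hjo
    exact hsa (r j) (hr1 j) (hr2 j) (fun h => hj (hr h)) s t
      (lt_of_le_of_lt (le_max_left _ _) hs) (lt_of_le_of_lt (le_max_left _ _) ht)
      (CORE.joined_mono o (le_max_left _ _) hjo)
  have sep1 : ∀ j : Fin 3, j ≠ 1 → ∀ s t : ℝ≥0, R < s → R < t →
      ¬ JoinedIn (closedBall o R)ᶜ (r 1 s) (r j t) := by
    intro j hj s t hs ht hjo
    exact hsb (r j) (hr1 j) (hr2 j) (fun h => hj (hr h)) s t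
      (lt_of_le_of_lt (le_max_right _ _) hs) (lt_of_le_of_lt (le_max_right _ _) ht)
      (CORE.joined_mono o (le_max_right _ _) hjo)
  have sep : ∀ i j : Fin 3, i ≠ j → ∀ s t : ℝ≥0, R < s → R < t →
      ¬ JoinedIn (closedBall o R)ᶜ (r i s) (r j t) := by
    intro i j hij s t hs ht hjo
    by_cases hi0 : i = 0
    · subst hi0; exact sep0 j (Ne.symm hij) s t hs ht hjo
    · by_cases hj0 : j = 0
      · subst hj0; exact sep0 i hi0 t s ht hs hjo.symm
      · by_cases hi1 : i = 1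
        · subst hi1; exact sep1 j (Ne.symm hij) s t hs ht hjo
        · by_cases hj1 : j = 1
          · subst hj1; exact sep1 i hi1 t s ht hs hjo.symm
          · exfalso
            apply hij
            omega
  obtain ⟨C, hC⟩ := exists_radius G o
  have hC0 : 0 ≤ C := by
    obtain ⟨g, hg⟩ := hC o
    exact dist_nonneg.trans hg
  obtain ⟨R0, hR0, hfar⟩ := hI0
  let T : ℝ≥0 := Real.toNNReal (2 * R + 2 + C + R0 + R0 * (2 * (R + C)))
  have hTc : (T : ℝ) = 2 * R + 2 + C + R0 + R0 * (2 * (R + C)) :=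
    Real.coe_toNNReal _ (by positivity)
  have hR0' : (0 : ℝ) < R0 := by exact_mod_cast hR0
  have hpr : 0 ≤ (R0 : ℝ) * (2 * (R + C)) := by positivity
  have hT1 : R0 ≤ T := by
    rw [← NNReal.coe_le_coe, hTc]; linarith
  obtain ⟨g, hg⟩ := hC (r 0 T)
  have hxq : dist (r 0 T) (g⁻¹ • o) ≤ C := by
    have : dist (g • (r 0 T)) (g • g⁻¹ • o) = dist (r 0 T) (g⁻¹ • o) := dist_smul _ _ _
    rw [← this, smul_inv_smul]
    exact hg
  set h := g⁻¹ with hh
  have hox : dist o (r 0 T) = T := by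
    rw [← hr2 0, (hr1 0).1]; simp
  have hoq : R < dist o (h • o) := by
    have := dist_triangle o (h • o) (r 0 T)
    rw [hox, dist_comm (h • o)] at this
    linarith
  -- two indices
  have hor : ∀ i j : Fin 3, i ≠ j → CORE.NJ h o R (r i) ∨ CORE.NJ h o R (r j) :=
    fun i j hij => CORE.nj_or h o R (sep i j hij)
  obtain ⟨i, j, hij, hi, hj⟩ : ∃ i j : Fin 3, i ≠ j ∧ CORE.NJ h o R (r i) ∧
      CORE.NJ h o R (r j) := by
    by_cases h0 : CORE.NJ h o R (r 0)
    · rcases hor 1 2 (by decide) with h3 | h3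
      · exact ⟨0, 1, by decide, h0, h3⟩
      · exact ⟨0, 2, by decide, h0, h3⟩
    · refine ⟨1, 2, by decide, ?_, ?_⟩
      · exact (hor 0 1 (by decide)).resolve_left h0
      · exact (hor 0 2 (by decide)).resolve_left h0
  obtain ⟨ρ, hρ, hρ0, ⟨t, ht⟩, hρj⟩ := CORE.core h2 b hb h o R hR (hr1 i) (hr2 i) hi hoq
  obtain ⟨ρ', hρ', hρ0', ⟨t', ht'⟩, hρj'⟩ := CORE.core h2 b hb h o R hR (hr1 j) (hr2 j) hj hoq
  have hne : ρ ≠ ρ' := by
    intro heq
    subst heq
    obtain ⟨m, hm⟩ := exists_nat_gt R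
    let s : ℝ≥0 := Real.toNNReal (dist o (h • o) + R + 2)
    have hs : dist o (h • o) + R + 1 < s := by
      have : (s : ℝ) = dist o (h • o) + R + 2 := Real.coe_toNNReal _ (by positivity)
      rw [this]; linarith
    obtain ⟨n, hn, hn2⟩ := hρj s hs m
    obtain ⟨n', hn', hn2'⟩ := hρj' s hs m
    have e1 : R < ((n : ℝ≥0) : ℝ) := by
      have : (m : ℝ) ≤ n := by exact_mod_cast hn
      have h5 : (((n : ℝ≥0)) : ℝ) = n := by simp
      rw [h5]; linarith
    have e2 : R < ((n' : ℝ≥0) : ℝ) := by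
      have : (m : ℝ) ≤ n' := by exact_mod_cast hn'
      have h5 : (((n' : ℝ≥0)) : ℝ) = n' := by simp
      rw [h5]; linarith
    exact sep i j hij n n' e1 e2 (CORE.joined_smul h o R (hn2.symm.trans hn2'))
  have hTT : (R0 : ℝ) * (2 * (R + C)) < 3 * T := by
    rw [hTc]; nlinarith
  by_cases hρr : ρ = r 0
  · have h5 : ρ' ≠ r 0 := fun h6 => hne (hρr.trans h6.symm)
    have h6 := near hb (hr1 0) (hr2 0) hρ' hρ0' hR0 hT1 hxq (mem_closedBall.1 ht') hTT
    have h7 := hfar ρ' hρ' hρ0' h5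
    linarith
  · have h6 := near hb (hr1 0) (hr2 0) hρ hρ0 hR0 hT1 hxq (mem_closedBall.1 ht) hTT
    have h7 := hfar ρ hρ hρ0 hρr
    linarith

end Pool.Agent.Y449.TE.THREEI
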