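import Pool.Agent.Y449.TE.CORE

/-!
Project TE: spaces with exactly two rays from a point are quasi-lines (helper449).
-/

set_option autoImplicit false

open Set Filter Topology Metric
open scoped NNReal
open Pool.Agent.Results.MP_1cfa3b_gt.TwoEnds

universe u v

namespace Pool.Agent.Y449.TE.TWO

theorem iso_of_two {X : Type u} [MetricSpace X] {b : X → X → unitInterval → X}
    (hb : IsCCCBicombing b) {o : X} {ξ η : ℝ≥0 → X} (hξ : IsRay b ξ) (hξ0 : ξ 0 = o)
    (hη : IsRay b η) (hη0 : η 0 = o) (hne : ξ ≠ η)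
    (hall : ∀ ζ : ℝ≥0 → X, IsRay b ζ → ζ 0 = o → ζ = ξ ∨ ζ = η) : Iso b o ξ := by
  obtain ⟨t0, ht0⟩ := Function.ne_iff.1 hne
  have hd : 0 < dist (η t0) (ξ t0) := dist_pos.2 (Ne.symm ht0)
  have ht0' : 0 < t0 := by
    rcases eq_or_lt_of_le (zero_le : (0 : ℝ≥0) ≤ t0) with h | h
    · exfalso; apply ht0; rw [← h, hξ0, hη0]
    · exact h
  have ht0r : (0 : ℝ) < t0 := by exact_mod_cast ht0'
  let s : ℝ≥0 := Real.toNNReal (t0 + t0 * 3 / dist (η t0) (ξ t0))
  have hs : (s : ℝ) = t0 + t0 * 3 / dist (η t0) (ξ t0) := Real.coe_toNNReal _ (by positivity)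
  have hs1 : t0 ≤ s := by
    rw [← NNReal.coe_le_coe, hs]
    have : 0 ≤ t0 * 3 / dist (η t0) (ξ t0) := by positivity
    linarith
  have hs0 : 0 < s := lt_of_lt_of_le ht0' hs1
  have hs0' : (0 : ℝ) < s := by exact_mod_cast hs0
  refine ⟨s, hs0, fun ζ hζ hζ0 hζne => ?_⟩
  rcases hall ζ hζ hζ0 with h | h
  · exact absurd h hζne
  · subst h
    have h1 := ISO2.ray_le hb hζ hξ (hζ0.trans hξ0.symm) hs1 hs0
    rw [div_mul_eq_mul_div, le_div_iff₀ hs0'] at h1
    have h2 : (t0 : ℝ) * 3 ≤ dist (ζ t0) (ξ t0) * s := by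
      rw [hs, mul_add, mul_div_cancel₀ _ hd.ne']
      have : 0 ≤ dist (ζ t0) (ξ t0) * t0 := by positivity
      linarith
    have h3 : (t0 : ℝ) * 3 ≤ t0 * dist (ζ s) (ξ s) := h2.trans h1
    exact le_of_mul_le_mul_left h3 ht0r

/-- rays separated by a ball around their origin form a rough line -/
theorem lower {X : Type u} [MetricSpace X] {b : X → X → unitInterval → X}
    (hb : IsCCCBicombing b) {o : X} {ξ η : ℝ≥0 → X} (hξ : IsRay b ξ) (hξ0 : ξ 0 = o)
    (hη : IsRay b η) (hη0 : η 0 = o) {R : ℝ}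
    (hsep : ∀ s t : ℝ≥0, R < s → R < t → ¬ JoinedIn (closedBall o R)ᶜ (ξ s) (η t))
    (s t : ℝ≥0) : (s : ℝ) + t - 2 * R ≤ dist (ξ s) (η t) := by
  have e1 : ∀ s, dist (ξ s) o = s := by intro s; rw [← hξ0, hξ.1]; simp
  have e2 : ∀ t, dist (η t) o = t := by intro t; rw [← hη0, hη.1]; simp
  by_cases hs : R < s
  · by_cases ht : R < t
    · have hcon := hsep s t hs ht
      have hex : ∃ v : unitInterval, b (ξ s) (η t) v ∈ closedBall o R := by
        by_contra hno
        push Not at hno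
        apply hcon
        have hcont : Continuous fun v : unitInterval => b (ξ s) (η t) v := by
          have : Continuous fun v : unitInterval =>
              ((ξ s, η t, v) : X × X × unitInterval) := by fun_prop
          exact hb.continuous.comp this
        exact ⟨⟨⟨fun v => b (ξ s) (η t) v, hcont⟩, hb.zero _ _, hb.one _ _⟩, fun v => hno v⟩
      obtain ⟨v, hv⟩ := hex
      rw [mem_closedBall] at hv
      have h1 := hb.speed (ξ s) (η t) 0 v
      have h2 := hb.speed (ξ s) (η t) v 1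
      rw [hb.zero] at h1
      rw [hb.one] at h2
      have h3 : dist (ξ s) (b (ξ s) (η t) v) = (v : ℝ) * dist (ξ s) (η t) := by
        rw [h1]; simp [abs_of_nonneg v.2.1]
      have h4 : dist (b (ξ s) (η t) v) (η t) = (1 - (v : ℝ)) * dist (ξ s) (η t) := by
        rw [h2, abs_sub_comm]
        simp only [Set.Icc.coe_one]
        rw [abs_of_nonneg (sub_nonneg.2 v.2.2)]
      have h5 := dist_triangle (ξ s) (b (ξ s) (η t) v) o
      have h6 := dist_triangle (η t) (b (ξ s) (η t) v) o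
      rw [e1, h3] at h5
      rw [e2, dist_comm (η t), h4] at h6
      linarith
    · have h1 := dist_triangle (ξ s) (η t) o
      rw [e1, e2] at h1
      linarith
  · have h1 := dist_triangle (η t) (ξ s) o
    rw [e1, e2, dist_comm] at h1
    linarith

theorem rough {X : Type u} [MetricSpace X] {b : X → X → unitInterval → X}
    {o : X} {ξ η : ℝ≥0 → X} (hξ : IsRay b ξ) (hξ0 : ξ 0 = o)
    (hη : IsRay b η) (hη0 : η 0 = o) {D : ℝ} (hD : 0 ≤ D)
    (hlow : ∀ s t : ℝ≥0, (s : ℝ) + t - D ≤ dist (ξ s) (η t))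
    (hden : ∀ x : X, ∃ t : ℝ≥0, dist x (ξ t) ≤ D ∨ dist x (η t) ≤ D) :
    ∃ f : ℝ → X, (∀ s t : ℝ, dist (f s) (f t) ≤ |s - t|) ∧
      (∀ s t : ℝ, |s - t| - D ≤ dist (f s) (f t)) ∧ ∀ x : X, ∃ t : ℝ, dist x (f t) ≤ D := by
  have e1 : ∀ s, dist (ξ s) o = s := by intro s; rw [← hξ0, hξ.1]; simp
  have e2 : ∀ t, dist (η t) o = t := by intro t; rw [← hη0, hη.1]; simp
  let f : ℝ → X := fun t => if t ≤ 0 then ξ (Real.toNNReal (-t)) else η (Real.toNNReal t)
  have fneg : ∀ t : ℝ, t ≤ 0 → f t = ξ (Real.toNNReal (-t)) := fun t ht => if_pos ht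
  have fpos : ∀ t : ℝ, 0 ≤ t → f t = η (Real.toNNReal t) := by
    intro t ht
    rcases eq_or_lt_of_le ht with h | h
    · subst h
      rw [fneg 0 le_rfl]
      simp [hξ0, hη0]
    · exact if_neg (not_le.2 h)
  have main : ∀ s t : ℝ, s ≤ t → dist (f s) (f t) ≤ |s - t| ∧ |s - t| - D ≤ dist (f s) (f t) := by
    intro s t hst
    rcases le_total t 0 with ht | ht
    · rw [fneg s (hst.trans ht), fneg t ht, hξ.1, Real.coe_toNNReal _ (by linarith),
        Real.coe_toNNReal _ (by linarith)]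
      have : |(-s) - (-t)| = |s - t| := by rw [← abs_neg]; congr 1; ring
      rw [this]
      exact ⟨le_rfl, by linarith⟩
    · rcases le_total s 0 with hs | hs
      · rw [fneg s hs, fpos t ht]
        have a1 : |s - t| = (-s) + t := by rw [abs_sub_comm, abs_of_nonneg (by linarith)]; ring
        have c1 : ((Real.toNNReal (-s) : ℝ≥0) : ℝ) = -s := Real.coe_toNNReal _ (by linarith)
        have c2 : ((Real.toNNReal t : ℝ≥0) : ℝ) = t := Real.coe_toNNReal _ ht
        rw [a1]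
        constructor
        · have h1 := dist_triangle (ξ (Real.toNNReal (-s))) o (η (Real.toNNReal t))
          rw [e1, dist_comm o, e2, c1, c2] at h1
          exact h1
        · have h1 := hlow (Real.toNNReal (-s)) (Real.toNNReal t)
          rw [c1, c2] at h1
          exact h1
      · rw [fpos s hs, fpos t ht, hη.1, Real.coe_toNNReal _ hs, Real.coe_toNNReal _ ht]
        exact ⟨le_rfl, by linarith⟩
  refine ⟨f, ?_, ?_, ?_⟩
  · intro s t
    rcases le_total s t with h | h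
    · exact (main s t h).1
    · rw [dist_comm, abs_sub_comm]; exact (main t s h).1
  · intro s t
    rcases le_total s t with h | h
    · exact (main s t h).2
    · rw [dist_comm, abs_sub_comm]; exact (main t s h).2
  · intro x
    obtain ⟨t, ht | ht⟩ := hden x
    · refine ⟨-(t : ℝ), ?_⟩
      rw [fneg _ (by simp)]
      simpa using ht
    · refine ⟨(t : ℝ), ?_⟩
      rw [fpos _ (NNReal.coe_nonneg t)]
      simpa using ht

theorem main (h1 : S_SEPI.{u}) (h2 : S_DIR.{u}) {X : Type u} [MetricSpace X] [ProperSpace X]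
    (b : X → X → unitInterval → X) (hb : IsCCCBicombing b) (G : Type v) [Group G] [MulAction G X]
    [IsIsometricSMul G X] [CompactSpace (MulAction.orbitRel.Quotient G X)] (o : X)
    (ξ η : ℝ≥0 → X) (hξ : IsRay b ξ) (hξ0 : ξ 0 = o)
    (hη : IsRay b η) (hη0 : η 0 = o) (hne : ξ ≠ η)
    (hall : ∀ ζ : ℝ≥0 → X, IsRay b ζ → ζ 0 = o → ζ = ξ ∨ ζ = η) :
    ∃ D : ℝ, ∃ f : ℝ → X, (∀ s t : ℝ, dist (f s) (f t) ≤ |s - t|) ∧
      (∀ s t : ℝ, |s - t| - D ≤ dist (f s) (f t)) ∧ ∀ x : X, ∃ t : ℝ, dist x (f t) ≤ D := by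
  obtain ⟨R, hR, hsep⟩ := h1 X b hb o ξ hξ hξ0 (iso_of_two hb hξ hξ0 hη hη0 hne hall)
  obtain ⟨C, hC⟩ := exists_radius G o
  have hC0 : 0 ≤ C := by
    obtain ⟨g, hg⟩ := hC o
    exact dist_nonneg.trans hg
  have hlow := lower hb hξ hξ0 hη hη0 (hsep η hη hη0 (Ne.symm hne))
  suffices hden : ∀ x : X, ∃ t : ℝ≥0, dist x (ξ t) ≤ R + C ∨ dist x (η t) ≤ R + C by
    refine ⟨2 * (R + C), rough hξ hξ0 hη hη0 (by positivity) (fun s t => ?_) (fun x => ?_)⟩
    · have := hlow s t
      linarith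
    · obtain ⟨t, ht⟩ := hden x
      refine ⟨t, ht.imp (fun h => ?_) (fun h => ?_)⟩ <;> linarith
  intro x
  by_contra hcon
  push Not at hcon
  obtain ⟨g, hg⟩ := hC x
  have hxq : dist x (g⁻¹ • o) ≤ C := by
    have : dist (g • x) (g • g⁻¹ • o) = dist x (g⁻¹ • o) := dist_smul _ _ _
    rw [← this, smul_inv_smul]
    exact hg
  set h := g⁻¹ with hh
  have avξ : ∀ t, R < dist (ξ t) (h • o) := by
    intro t
    have h3 := (hcon t).1
    have h4 := dist_triangle x (h • o) (ξ t)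
    rw [dist_comm (h • o)] at h4
    linarith
  have avη : ∀ t, R < dist (η t) (h • o) := by
    intro t
    have h3 := (hcon t).2
    have h4 := dist_triangle x (h • o) (η t)
    rw [dist_comm (h • o)] at h4
    linarith
  have hoq : R < dist o (h • o) := by rw [← hξ0]; exact hξ0 ▸ avξ 0
  have key : ∀ c : ℝ≥0 → X, IsRay b c → c 0 = o → CORE.NJ h o R c → False := by
    intro c hc hc0 hnj
    obtain ⟨ρ, hρ, hρ0, ⟨t, ht⟩, -⟩ := CORE.core h2 b hb h o R hR hc hc0 hnj hoq
    rw [mem_closedBall] at ht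
    rcases hall ρ hρ hρ0 with h5 | h5
    · subst h5; exact absurd ht (not_le.2 (avξ t))
    · subst h5; exact absurd ht (not_le.2 (avη t))
  rcases CORE.nj_or h o R (hsep η hη hη0 (Ne.symm hne)) with h5 | h5
  · exact key ξ hξ hξ0 h5
  · exact key η hη hη0 h5

end Pool.Agent.Y449.TE.TWO
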