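import Pool.Agent.Y449.TE.Stm

/-! Equivalent rays from the same point coincide (job TE-UNIQ; project of helper449, proof by
helper43). -/

set_option autoImplicit false

open Set Filter Topology Metric
open scoped NNReal
open Pool.Agent.Results.MP_1cfa3b_gt.TwoEnds

universe u v

namespace Pool.Agent.Y449.TE.UNIQ

theorem main : S_UNIQ.{u} := by
  intro X _ b hb ξ η hξ hη h0 D hD
  funext t
  have hD0 : 0 ≤ D := le_trans dist_nonneg (hD 0)
  have ht0 : (0 : ℝ) ≤ t := t.2
  have key : ∀ n : ℕ, dist (ξ t) (η t) ≤ ((t : ℝ) * D) / (n + 1) := by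
    intro n
    have hpos : (0 : ℝ) < (t : ℝ) + ((n : ℝ) + 1) := by positivity
    have ht : (t : ℝ) / ((t : ℝ) + ((n : ℝ) + 1)) ∈ unitInterval := by
      constructor
      · positivity
      · rw [div_le_one hpos]
        linarith [show (0 : ℝ) ≤ n from Nat.cast_nonneg n]
    have e1 := hξ.2 (t + ((n : ℝ≥0) + 1)) (by positivity) ⟨_, ht⟩ t (by
      push_cast
      field_simp)
    have e2 := hη.2 (t + ((n : ℝ≥0) + 1)) (by positivity) ⟨_, ht⟩ t (by
      push_cast
      field_simp)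
    rw [e1, e2, ← h0]
    refine (hb.conical _ _ _ _ _).trans ?_
    rw [dist_self, mul_zero, zero_add]
    have := hD (t + ((n : ℝ≥0) + 1))
    calc (t : ℝ) / ((t : ℝ) + ((n : ℝ) + 1)) *
          dist (ξ (t + ((n : ℝ≥0) + 1))) (η (t + ((n : ℝ≥0) + 1)))
        ≤ (t : ℝ) / ((t : ℝ) + ((n : ℝ) + 1)) * D := by gcongr
      _ = ((t : ℝ) * D) / ((t : ℝ) + ((n : ℝ) + 1)) := by ring
      _ ≤ ((t : ℝ) * D) / (n + 1) := by
        apply div_le_div_of_nonneg_left (by positivity) (by positivity)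
        linarith
  have hlim : Tendsto (fun n : ℕ => ((t : ℝ) * D) / ((n : ℝ) + 1)) atTop (𝓝 0) := by
    have := (tendsto_const_div_atTop_nhds_zero_nat ((t : ℝ) * D)).comp (tendsto_add_atTop_nat 1)
    refine this.congr fun n => ?_
    simp
  have h1 : dist (ξ t) (η t) ≤ 0 := ge_of_tendsto' hlim key
  exact dist_le_zero.1 h1

end Pool.Agent.Y449.TE.UNIQ
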