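import Pool.Agent.Y449.TE.CONT

/-!
Project TE: assembly of the stronger trichotomy (helper449).
-/

set_option autoImplicit false

open Set Filter Topology Metric
open scoped NNReal
open Pool.Agent.Results.MP_1cfa3b_gt.TwoEnds

universe u v

namespace Pool.Agent.Y449.TE.CARD

/-- rays from `o` and boundary points correspond to each other -/
theorem bij (hU : S_UNIQ.{u}) (hE : S_EQUIV.{u}) {X : Type u} [MetricSpace X] [ProperSpace X]
    (b : X → X → unitInterval → X) (hb : IsCCCBicombing b) (o : X) :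
    ∃ f : {ξ : ℝ≥0 → X // IsRay b ξ ∧ ξ 0 = o} → Boundary b, Function.Bijective f := by
  let f : {ξ : ℝ≥0 → X // IsRay b ξ ∧ ξ 0 = o} → Boundary b := fun ξ =>
    Quotient.mk (rayEquiv b) ⟨ξ.1, ξ.2.1⟩
  refine ⟨f, ?_, ?_⟩
  · intro ξ η h
    obtain ⟨D, hD⟩ := Quotient.exact h
    apply Subtype.ext
    exact hU X b hb ξ.1 η.1 ξ.2.1 η.2.1 (ξ.2.2.trans η.2.2.symm) D hD
  · intro c
    obtain ⟨ξ, hξ⟩ := Quotient.exists_rep c
    obtain ⟨η, hη, hη0, D, hD⟩ := hE X b hb ξ.1 o ξ.2
    refine ⟨⟨η, hη, hη0⟩, ?_⟩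
    rw [← hξ]
    apply Quotient.sound
    exact ⟨D, fun t => by rw [dist_comm]; exact hD t⟩

theorem main (hU : S_UNIQ.{u}) (hE : S_EQUIV.{u}) (hI : S_ISO2.{u}) (h3 : S_THREEI.{u, v})
    (hC : S_CONT.{u}) : S_CARD.{u, v} := by
  intro X _ _ b hb G _ _ _ _
  rcases result b hb G with h | ⟨hX, hN⟩
  · exact Or.inl h
  · right
    refine ⟨hX, ?_⟩
    obtain ⟨o⟩ : Nonempty X := by
      obtain ⟨q⟩ : Nonempty (Boundary b) := inferInstance
      obtain ⟨ξ, -⟩ := Quotient.exists_rep q
      exact ⟨ξ.1 0⟩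
    obtain ⟨f, hf⟩ := bij hU hE b hb o
    let e := Equiv.ofBijective f hf
    by_cases hcount : {ξ : ℝ≥0 → X | IsRay b ξ ∧ ξ 0 = o}.Countable
    · left
      have no3 : ∀ c : Fin 3 → Boundary b, ¬ Function.Injective c := by
        intro c hc
        obtain ⟨r', hr', h1, h2, h4, h5⟩ := hI X b hb o (fun i => (e.symm (c i)).1)
          (fun i j hij => hc (e.symm.injective (Subtype.ext hij)))
          (fun i => (e.symm (c i)).2.1) (fun i => (e.symm (c i)).2.2) hcount
        exact h3 X b hb G o r' hr' h1 h2 h4 h5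
      rcases finite_or_infinite (Boundary b) with hfin | hinf
      · have h1 : 1 < Nat.card (Boundary b) := Finite.one_lt_card
        by_contra hne
        have h2 : 3 ≤ Nat.card (Boundary b) := by omega
        have e' := Finite.equivFin (Boundary b)
        exact no3 (fun i => e'.symm (Fin.castLE h2 i))
          (e'.symm.injective.comp (Fin.castLE_injective h2))
      · exfalso
        let g := Infinite.natEmbedding (Boundary b)
        exact no3 (fun i => g i.1) (g.injective.comp Fin.val_injective)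
    · right
      have h1 := hC X b hb o hcount
      have h2 : Cardinal.mk (Boundary b) =
          Cardinal.mk {ξ : ℝ≥0 → X // IsRay b ξ ∧ ξ 0 = o} := (Cardinal.mk_congr e).symm
      exact h2.trans h1

end Pool.Agent.Y449.TE.CARD
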