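import Pool.Agent.Y449.TE.ISO2

/-!
Project TE: uncountably many rays are continuum many rays (helper449).
-/

set_option autoImplicit false

open Set Filter Topology Metric
open scoped NNReal
open Pool.Agent.Results.MP_1cfa3b_gt.TwoEnds

universe u v

namespace Pool.Agent.Y449.TE.CONT

/-- an uncountable compact subset of a Polish space has the cardinality of the continuum -/
theorem mk_compact (P : Type u) [TopologicalSpace P] [PolishSpace P] (K : Set P)
    (hK : IsCompact K) (hunc : ¬ K.Countable) : Cardinal.mk K = Cardinal.continuum.{u} := by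
  have : PolishSpace K := hK.isClosed.polishSpace
  letI : MeasurableSpace (↥K) := borel (↥K)
  haveI : BorelSpace (↥K) := ⟨rfl⟩
  have e := PolishSpace.measurableEquivNatBoolOfNotCountable (α := K)
    (fun h => hunc (Set.countable_coe_iff.1 h))
  have h1 : Cardinal.lift.{0} (Cardinal.mk K) = Cardinal.lift.{u} (Cardinal.mk (ℕ → Bool)) :=
    Cardinal.lift_mk_eq'.2 ⟨e.toEquiv⟩
  rw [Cardinal.lift_id'] at h1
  · simpa using h1

theorem main : S_CONT.{u} := by
  intro X _ _ b hb o hunc
  set K : Set (ℝ≥0 → X) := {ξ : ℝ≥0 → X | IsRay b ξ ∧ ξ 0 = o} with hK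
  have hKc : IsCompact K := CPT.main X b hb o
  let ρ : (ℝ≥0 → X) → (ℕ → X) := fun ξ n => ξ n
  have hρ : Continuous ρ := by fun_prop
  have hinj : Set.InjOn ρ K := by
    intro ξ hξ η hη h
    funext t
    obtain ⟨n, hn⟩ := exists_nat_gt t
    have h1 := ISO2.ray_le hb hξ.1 hη.1 (hξ.2.trans hη.2.symm) hn.le
      (lt_of_le_of_lt (zero_le) hn)
    have h2 : ξ n = η n := congrFun h n
    rw [h2, dist_self, mul_zero] at h1
    exact dist_le_zero.1 h1
  have h1 : Cardinal.mk (ρ '' K) = Cardinal.continuum.{u} := by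
    apply mk_compact (ℕ → X) _ (hKc.image hρ)
    intro h
    exact hunc (Set.countable_of_injective_of_countable_image hinj h)
  have h2 : Cardinal.mk (ρ '' K) = Cardinal.mk K := Cardinal.mk_image_eq_of_injOn _ _ hinj
  exact h2.symm.trans h1

end Pool.Agent.Y449.TE.CONT
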