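import Pool.Agent.Y449.TE.ISO2

/-!
Project TE: translated rays (helper449).
-/

set_option autoImplicit false

open Set Filter Topology Metric
open scoped NNReal
open Pool.Agent.Results.MP_1cfa3b_gt.TwoEnds

universe u v

namespace Pool.Agent.Y449.TE.CORE

section
variable {X : Type u} [MetricSpace X] {G : Type v} [Group G] [MulAction G X] [IsIsometricSMul G X]

theorem joined_smul (h : G) (o : X) (R : ℝ) {x y : X}
    (hj : JoinedIn (closedBall (h • o) R)ᶜ (h • x) (h • y)) :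
    JoinedIn (closedBall o R)ᶜ x y := by
  have hc : Continuous fun z : X => h⁻¹ • z := (isometry_smul X h⁻¹).continuous
  obtain ⟨γ, hγ⟩ := hj
  refine ⟨(γ.map hc).cast (by simp) (by simp), fun t => ?_⟩
  have h1 := hγ t
  rw [mem_compl_iff, mem_closedBall] at *
  have h2 : dist (((γ.map hc).cast (by simp) (by simp) : Path x y) t) o =
      dist (γ t) (h • o) := by
    have h3 : (((γ.map hc).cast (by simp) (by simp) : Path x y) t) = h⁻¹ • γ t := rfl
    rw [h3]
    have h4 : dist (h⁻¹ • γ t) (h⁻¹ • h • o) = dist (γ t) (h • o) := dist_smul _ _ _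
    rwa [inv_smul_smul] at h4
  rwa [h2]

theorem joined_mono (o : X) {R R' : ℝ} (hR : R ≤ R') {x y : X}
    (hj : JoinedIn (closedBall o R')ᶜ x y) : JoinedIn (closedBall o R)ᶜ x y :=
  hj.mono (compl_subset_compl.2 (closedBall_subset_closedBall hR))


/-- the translate of the ray `c` is not joined to `o` outside the ball -/
def NJ (h : G) (o : X) (R : ℝ) (c : ℝ≥0 → X) : Prop :=
  ∀ s : ℝ≥0, R < s → ¬ JoinedIn (closedBall (h • o) R)ᶜ o (h • c s)

theorem nj_or (h : G) (o : X) (R : ℝ) {c d : ℝ≥0 → X}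
    (hsep : ∀ s t : ℝ≥0, R < s → R < t → ¬ JoinedIn (closedBall o R)ᶜ (c s) (d t)) :
    NJ h o R c ∨ NJ h o R d := by
  by_contra hcon
  push Not at hcon
  obtain ⟨h1, h2⟩ := hcon
  unfold NJ at h1 h2
  push Not at h1 h2
  obtain ⟨s, hs, hs2⟩ := h1
  obtain ⟨t, ht, ht2⟩ := h2
  exact hsep s t hs ht (joined_smul h o R (hs2.symm.trans ht2))

end

theorem core (h2 : S_DIR.{u}) {X : Type u} [MetricSpace X] [ProperSpace X]
    (b : X → X → unitInterval → X) (hb : IsCCCBicombing b)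
    {G : Type v} [Group G] [MulAction G X] [IsIsometricSMul G X]
    (h : G) (o : X) (R : ℝ) (hR : 0 < R) {c : ℝ≥0 → X} (hc : IsRay b c) (hc0 : c 0 = o)
    (hnj : NJ h o R c) (hq : R < dist o (h • o)) :
    ∃ ξ : ℝ≥0 → X, IsRay b ξ ∧ ξ 0 = o ∧ (∃ t : ℝ≥0, ξ t ∈ closedBall (h • o) R) ∧
      ∀ s : ℝ≥0, dist o (h • o) + R + 1 < s → ∀ m : ℕ, ∃ n ≥ m,
        JoinedIn (closedBall (h • o) R)ᶜ (ξ s) (h • c (n : ℝ≥0)) := by
  have ht : Tendsto (fun n : ℕ => dist o (h • c (n : ℝ≥0))) atTop atTop := by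
    have h1 : Tendsto (fun n : ℕ => (n : ℝ) + (-dist o (h • o))) atTop atTop :=
      tendsto_atTop_add_const_right _ _ tendsto_natCast_atTop_atTop
    refine tendsto_atTop_mono (fun n => ?_) h1
    have h3 : dist (h • o) (h • c (n : ℝ≥0)) = n := by
      rw [dist_smul, ← hc0, hc.1]
      simp
    have h4 := dist_triangle (h • o) o (h • c (n : ℝ≥0))
    rw [dist_comm (h • o) o] at h4
    linarith
  have hev : ∀ᶠ n : ℕ in atTop, ¬ JoinedIn (closedBall (h • o) R)ᶜ o (h • c (n : ℝ≥0)) := by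
    obtain ⟨N, hN⟩ := exists_nat_gt R
    filter_upwards [eventually_ge_atTop N] with n hn
    apply hnj
    have : (N : ℝ) ≤ n := by exact_mod_cast hn
    have h5 : (((n : ℝ≥0)) : ℝ) = n := by simp
    rw [h5]
    linarith
  exact h2 X b hb o (h • o) R (fun n => h • c (n : ℝ≥0)) hR ht hev hq

end Pool.Agent.Y449.TE.CORE
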