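import Pool.Agent.Y449.TE.Stm2

/-!
Project TE: compactness of the set of rays from a point (helper449).
-/

set_option autoImplicit false

open Set Filter Topology Metric
open scoped NNReal
open Pool.Agent.Results.MP_1cfa3b_gt.TwoEnds

universe u v

namespace Pool.Agent.Y449.TE.CPT

theorem main : S_CPT.{u} := by
  intro X _ _ b hb o
  have hb2 : ∀ t : unitInterval, Continuous fun p : X × X => b p.1 p.2 t := by
    intro t
    have : Continuous fun p : X × X => ((p.1, p.2, t) : X × X × unitInterval) := by fun_prop
    exact hb.continuous.comp this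
  have hK : IsCompact (Set.pi univ fun t : ℝ≥0 => closedBall o (t : ℝ)) :=
    isCompact_univ_pi fun t => isCompact_closedBall o t
  refine hK.of_isClosed_subset ?_ ?_
  · have h1 : IsClosed {ξ : ℝ≥0 → X | ∀ s t : ℝ≥0, dist (ξ s) (ξ t) = |(s : ℝ) - t|} := by
      simp only [ofPred_forall]
      refine isClosed_iInter fun s => isClosed_iInter fun t => isClosed_eq ?_ continuous_const
      exact (continuous_apply s).dist (continuous_apply t)
    have h2 : IsClosed {ξ : ℝ≥0 → X | ∀ s : ℝ≥0, 0 < s → ∀ (t : unitInterval) (r : ℝ≥0),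
        (r : ℝ) = t * s → ξ r = b (ξ 0) (ξ s) t} := by
      simp only [ofPred_forall]
      refine isClosed_iInter fun s => isClosed_iInter fun _ => isClosed_iInter fun t =>
        isClosed_iInter fun r => isClosed_iInter fun _ => isClosed_eq (continuous_apply r) ?_
      have hc : Continuous fun ξ : ℝ≥0 → X => (ξ 0, ξ s) := by fun_prop
      exact (hb2 t).comp hc
    have h3 : IsClosed {ξ : ℝ≥0 → X | ξ 0 = o} :=
      isClosed_eq (continuous_apply 0) continuous_const
    exact (h1.inter h2).inter h3
  · intro ξ hξ t _
    rw [mem_closedBall, ← hξ.2, hξ.1.1]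
    simp

end Pool.Agent.Y449.TE.CPT
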