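import Pool.Agent.Y449.TE.CPT

/-!
Project TE: isolated rays (helper449).
-/

set_option autoImplicit false

open Set Filter Topology Metric
open scoped NNReal
open Pool.Agent.Results.MP_1cfa3b_gt.TwoEnds

universe u v

namespace Pool.Agent.Y449.TE.ISO2

/-- rays from the same point diverge at least linearly -/
theorem ray_le {X : Type u} [MetricSpace X] {b : X → X → unitInterval → X}
    (hb : IsCCCBicombing b) {ξ η : ℝ≥0 → X} (hξ : IsRay b ξ) (hη : IsRay b η) (h0 : ξ 0 = η 0)
    {t s : ℝ≥0} (hts : t ≤ s) (hs : 0 < s) :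
    dist (ξ t) (η t) ≤ (t / s : ℝ) * dist (ξ s) (η s) := by
  have hs' : (0 : ℝ) < s := by exact_mod_cast hs
  have hmem : ((t : ℝ) / s) ∈ unitInterval :=
    ⟨div_nonneg t.2 s.2, (div_le_one hs').2 (by exact_mod_cast hts)⟩
  have e1 := hξ.2 s hs ⟨_, hmem⟩ t (by field_simp)
  have e2 := hη.2 s hs ⟨_, hmem⟩ t (by field_simp)
  rw [e1, e2, ← h0]
  refine (hb.conical _ _ _ _ _).trans ?_
  rw [dist_self, mul_zero, zero_add]

/-- a nonempty countable compact Hausdorff space has an isolated point -/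
theorem exists_isolated (Z : Type u) [TopologicalSpace Z] [CompactSpace Z] [T2Space Z]
    [Countable Z] [Nonempty Z] : ∃ z : Z, IsOpen ({z} : Set Z) := by
  obtain ⟨z, hz⟩ := nonempty_interior_of_iUnion_of_closed (f := fun z : Z => ({z} : Set Z))
    (fun z => isClosed_singleton) (by ext; simp)
  refine ⟨z, ?_⟩
  have h1 : interior ({z} : Set Z) = {z} := by
    apply Set.Subset.antisymm interior_subset
    obtain ⟨w, hw⟩ := hz
    have := interior_subset hw
    rw [mem_singleton_iff] at this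
    rw [this] at hw
    intro y hy
    rw [mem_singleton_iff] at hy
    rw [hy]; exact hw
  rw [← h1]
  exact isOpen_interior

/-- two isolated points -/
theorem exists_two (Z : Type u) [TopologicalSpace Z] [CompactSpace Z] [T2Space Z]
    [Countable Z] (r : Fin 3 → Z) (hr : Function.Injective r) :
    ∃ r' : Fin 3 → Z, Function.Injective r' ∧ IsOpen ({r' 0} : Set Z) ∧
      IsOpen ({r' 1} : Set Z) := by
  have : Nonempty Z := ⟨r 0⟩
  obtain ⟨z0, hz0⟩ := exists_isolated Z
  have hcl : IsClosed {z : Z | z ≠ z0} := by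
    have : {z : Z | z ≠ z0} = ({z0} : Set Z)ᶜ := by ext; simp
    rw [this]
    exact hz0.isClosed_compl
  have hop : IsOpen {z : Z | z ≠ z0} := by
    have : {z : Z | z ≠ z0} = ({z0} : Set Z)ᶜ := by ext; simp
    rw [this]
    exact isOpen_compl_singleton
  have hc : CompactSpace {z : Z | z ≠ z0} := isCompact_iff_compactSpace.1 hcl.isCompact
  have hne : Nonempty {z : Z | z ≠ z0} := by
    by_cases h : r 0 = z0
    · refine ⟨⟨r 1, fun h1 => ?_⟩⟩
      have := hr (h.trans h1.symm)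
      exact absurd this (by decide)
    · exact ⟨⟨r 0, h⟩⟩
  obtain ⟨z1, hz1⟩ := exists_isolated {z : Z | z ≠ z0}
  have hz1' : IsOpen ({z1.1} : Set Z) := by
    have := hop.isOpenMap_subtype_val _ hz1
    rwa [image_singleton] at this
  have h2 : ∃ z2 : Z, z2 ≠ z0 ∧ z2 ≠ z1.1 := by
    by_contra hcon
    push Not at hcon
    have key : ∀ i j : Fin 3, r i ≠ z0 → r j ≠ z0 → i = j := fun i j hi hj =>
      hr ((hcon _ hi).trans (hcon _ hj).symm)
    have key2 : ∀ i j : Fin 3, r i = z0 → r j = z0 → i = j := fun i j hi hj =>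
      hr (hi.trans hj.symm)
    by_cases h0 : r 0 = z0
    · by_cases h1 : r 1 = z0
      · exact absurd (key2 _ _ h0 h1) (by decide)
      · by_cases h2 : r 2 = z0
        · exact absurd (key2 _ _ h0 h2) (by decide)
        · exact absurd (key _ _ h1 h2) (by decide)
    · by_cases h1 : r 1 = z0
      · by_cases h2 : r 2 = z0
        · exact absurd (key2 _ _ h1 h2) (by decide)
        · exact absurd (key _ _ h0 h2) (by decide)
      · exact absurd (key _ _ h0 h1) (by decide)
  obtain ⟨z2, h20, h21⟩ := h2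
  refine ⟨![z0, z1.1, z2], ?_, hz0, hz1'⟩
  have h10 : z1.1 ≠ z0 := z1.2
  intro i j hij
  fin_cases i <;> fin_cases j <;> simp_all

theorem iso_of_isOpen {X : Type u} [MetricSpace X] [ProperSpace X]
    (b : X → X → unitInterval → X) (hb : IsCCCBicombing b) (o : X)
    (z : {ξ : ℝ≥0 → X | IsRay b ξ ∧ ξ 0 = o})
    (hz : IsOpen ({z} : Set {ξ : ℝ≥0 → X | IsRay b ξ ∧ ξ 0 = o})) : Iso b o z.1 := by
  by_contra hcon
  unfold Iso at hcon
  push Not at hcon
  choose η hη hη0 hne hlt using fun n : ℕ => hcon ((n : ℝ≥0) + 1) (by positivity)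
  let ζ : ℕ → {ξ : ℝ≥0 → X | IsRay b ξ ∧ ξ 0 = o} := fun n => ⟨η n, hη n, hη0 n⟩
  have hlim : Tendsto ζ atTop (𝓝 z) := by
    rw [tendsto_subtype_rng, tendsto_pi_nhds]
    intro t
    rw [tendsto_iff_dist_tendsto_zero]
    have hb1 : Tendsto (fun n : ℕ => (3 * (t : ℝ)) / ((n : ℝ) + 1)) atTop (𝓝 0) := by
      have := (tendsto_const_div_atTop_nhds_zero_nat (3 * (t : ℝ))).comp (tendsto_add_atTop_nat 1)
      refine this.congr fun n => ?_
      simp
    refine squeeze_zero' (Eventually.of_forall fun n => dist_nonneg) ?_ hb1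
    obtain ⟨N, hN⟩ := exists_nat_gt t
    filter_upwards [eventually_ge_atTop N] with n hn
    have h1 : t ≤ (n : ℝ≥0) + 1 := by
      have : (N : ℝ≥0) ≤ n := by exact_mod_cast hn
      exact (hN.le.trans this).trans (by simp)
    have h2 := ray_le hb (hη n) z.2.1 ((hη0 n).trans z.2.2.symm) h1 (by positivity)
    have hpos : (0 : ℝ) < (n : ℝ) + 1 := by positivity
    refine h2.trans ?_
    push_cast
    rw [div_mul_eq_mul_div, div_le_div_iff_of_pos_right hpos]
    nlinarith [(hlt n).le, NNReal.coe_nonneg t]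
  have hev : ∀ᶠ n in atTop, ζ n ∈ ({z} : Set {ξ : ℝ≥0 → X | IsRay b ξ ∧ ξ 0 = o}) :=
    hlim.eventually_mem (hz.mem_nhds rfl)
  obtain ⟨n, hn⟩ := hev.exists
  rw [mem_singleton_iff] at hn
  exact hne n (congrArg Subtype.val hn)

theorem main : S_ISO2.{u} := by
  intro X _ _ b hb o r hr hr1 hr2 hcount
  have hc : CompactSpace {ξ : ℝ≥0 → X | IsRay b ξ ∧ ξ 0 = o} :=
    isCompact_iff_compactSpace.1 (CPT.main X b hb o)
  have hcnt : Countable {ξ : ℝ≥0 → X | IsRay b ξ ∧ ξ 0 = o} := hcount.to_subtype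
  obtain ⟨r', hr', h0, h1⟩ := exists_two {ξ : ℝ≥0 → X | IsRay b ξ ∧ ξ 0 = o}
    (fun i => ⟨r i, hr1 i, hr2 i⟩) (fun i j hij => hr (congrArg Subtype.val hij))
  refine ⟨fun i => (r' i).1, fun i j hij => hr' (Subtype.ext hij), fun i => (r' i).2.1,
    fun i => (r' i).2.2, iso_of_isOpen b hb o _ h0, iso_of_isOpen b hb o _ h1⟩

end Pool.Agent.Y449.TE.ISO2
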