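import Pool.Agent.Results.MP_1cfa3b_gt.TwoEnds

/-!
Project TE: the boundary of a cocompact ccc-bicombable space is empty, has two points or is infinite.
Exact statements of the jobs.
-/

set_option autoImplicit false

open Set Filter Topology Metric
open scoped NNReal
open Pool.Agent.Results.MP_1cfa3b_gt.TwoEnds

universe u v

namespace Pool.Agent.Y449.TE

/-- equivalent rays with the same origin coincide -/
def S_UNIQ : Prop := ∀ (X : Type u) [MetricSpace X] (b : X → X → unitInterval → X),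
  IsCCCBicombing b → ∀ ξ η : ℝ≥0 → X, IsRay b ξ → IsRay b η → ξ 0 = η 0 → ∀ D : ℝ,
  (∀ t : ℝ≥0, dist (ξ t) (η t) ≤ D) → ξ = η

/-- rays from any point in any class -/
def S_EQUIV : Prop := ∀ (X : Type u) [MetricSpace X] [ProperSpace X]
    (b : X → X → unitInterval → X), IsCCCBicombing b → ∀ (ξ : ℝ≥0 → X) (x : X), IsRay b ξ →
  ∃ η : ℝ≥0 → X, IsRay b η ∧ η 0 = x ∧ ∃ D : ℝ, ∀ t : ℝ≥0, dist (ξ t) (η t) ≤ D

/-- finitely many rays from a point are separated by a ball around the point -/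
def S_SEP : Prop := ∀ (X : Type u) [MetricSpace X] [ProperSpace X]
    (b : X → X → unitInterval → X), IsCCCBicombing b → ∀ o : X,
  {ξ : ℝ≥0 → X | IsRay b ξ ∧ ξ 0 = o}.Finite →
  ∃ R : ℝ, 0 < R ∧ ∀ ξ η : ℝ≥0 → X, IsRay b ξ → ξ 0 = o → IsRay b η → η 0 = o → ξ ≠ η →
    ∀ s t : ℝ≥0, R < s → R < t → ¬ JoinedIn (closedBall o R)ᶜ (ξ s) (η t)

/-- limits of directions: a sequence of points which goes to infinity and is separated from `o` by
a ball around `q` gives a ray from `o` which crosses that ball, and whose far points are joined to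
points of the sequence outside the ball -/
def S_DIR : Prop := ∀ (X : Type u) [MetricSpace X] [ProperSpace X]
    (b : X → X → unitInterval → X), IsCCCBicombing b → ∀ (o q : X) (R : ℝ) (y : ℕ → X), 0 < R →
  Tendsto (fun n => dist o (y n)) atTop atTop →
  (∀ᶠ n in atTop, ¬ JoinedIn (closedBall q R)ᶜ o (y n)) → R < dist o q →
  ∃ ξ : ℝ≥0 → X, IsRay b ξ ∧ ξ 0 = o ∧ (∃ t : ℝ≥0, ξ t ∈ closedBall q R) ∧
    ∀ s : ℝ≥0, dist o q + R + 1 < s → ∀ m : ℕ, ∃ n ≥ m, JoinedIn (closedBall q R)ᶜ (ξ s) (y n)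

/-- three rays from a point are too many if there are finitely many -/
def S_THREE : Prop := ∀ (X : Type u) [MetricSpace X] [ProperSpace X]
    (b : X → X → unitInterval → X), IsCCCBicombing b → ∀ (G : Type v) [Group G] [MulAction G X]
    [IsIsometricSMul G X] [CompactSpace (MulAction.orbitRel.Quotient G X)] (o : X)
    (r : Fin 3 → (ℝ≥0 → X)), Function.Injective r → (∀ i, IsRay b (r i)) → (∀ i, r i 0 = o) →
  ¬ {ξ : ℝ≥0 → X | IsRay b ξ ∧ ξ 0 = o}.Finite

/-- the theorem -/
def S_TRI : Prop := ∀ (X : Type u) [MetricSpace X] [ProperSpace X]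
    (b : X → X → unitInterval → X), IsCCCBicombing b → ∀ (G : Type v) [Group G] [MulAction G X]
    [IsIsometricSMul G X] [CompactSpace (MulAction.orbitRel.Quotient G X)],
  (CompactSpace X ∧ IsEmpty (Boundary b)) ∨
    (NoncompactSpace X ∧ (Nat.card (Boundary b) = 2 ∨ Infinite (Boundary b)))

end Pool.Agent.Y449.TE
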