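import Pool.Agent.Y449.TE.Stm

/-!
Project TE, stronger form: the boundary of a cocompact ccc-bicombable space is empty, has two
points or has the cardinality of the continuum. Exact statements of the jobs.
-/

set_option autoImplicit false

open Set Filter Topology Metric
open scoped NNReal
open Pool.Agent.Results.MP_1cfa3b_gt.TwoEnds

universe u v

namespace Pool.Agent.Y449.TE

/-- the ray `r` from `o` is isolated: at some time all other rays from `o` are at distance at
least three -/
def Iso {X : Type u} [MetricSpace X] (b : X → X → unitInterval → X) (o : X) (r : ℝ≥0 → X) : Prop :=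
  ∃ R0 : ℝ≥0, 0 < R0 ∧ ∀ η : ℝ≥0 → X, IsRay b η → η 0 = o → η ≠ r → 3 ≤ dist (η R0) (r R0)

/-- an isolated ray is separated from all other rays by a ball -/
def S_SEPI : Prop := ∀ (X : Type u) [MetricSpace X] [ProperSpace X]
    (b : X → X → unitInterval → X), IsCCCBicombing b → ∀ (o : X) (r : ℝ≥0 → X),
  IsRay b r → r 0 = o → Iso b o r →
  ∃ R : ℝ, 0 < R ∧ ∀ η : ℝ≥0 → X, IsRay b η → η 0 = o → η ≠ r →
    ∀ s t : ℝ≥0, R < s → R < t → ¬ JoinedIn (closedBall o R)ᶜ (r s) (η t)

/-- there are no three distinct rays from a point, two of which are isolated -/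
def S_THREEI : Prop := ∀ (X : Type u) [MetricSpace X] [ProperSpace X]
    (b : X → X → unitInterval → X), IsCCCBicombing b → ∀ (G : Type v) [Group G] [MulAction G X]
    [IsIsometricSMul G X] [CompactSpace (MulAction.orbitRel.Quotient G X)] (o : X)
    (r : Fin 3 → (ℝ≥0 → X)), Function.Injective r → (∀ i, IsRay b (r i)) → (∀ i, r i 0 = o) →
  Iso b o (r 0) → Iso b o (r 1) → False

/-- countably many rays, at least three: two of them are isolated -/
def S_ISO2 : Prop := ∀ (X : Type u) [MetricSpace X] [ProperSpace X]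
    (b : X → X → unitInterval → X), IsCCCBicombing b → ∀ (o : X)
    (r : Fin 3 → (ℝ≥0 → X)), Function.Injective r → (∀ i, IsRay b (r i)) → (∀ i, r i 0 = o) →
  {ξ : ℝ≥0 → X | IsRay b ξ ∧ ξ 0 = o}.Countable →
  ∃ r' : Fin 3 → (ℝ≥0 → X), Function.Injective r' ∧ (∀ i, IsRay b (r' i)) ∧ (∀ i, r' i 0 = o) ∧
    Iso b o (r' 0) ∧ Iso b o (r' 1)

/-- the rays from a point form a compact set -/
def S_CPT : Prop := ∀ (X : Type u) [MetricSpace X] [ProperSpace X]
    (b : X → X → unitInterval → X), IsCCCBicombing b → ∀ (o : X),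
  IsCompact {ξ : ℝ≥0 → X | IsRay b ξ ∧ ξ 0 = o}

/-- uncountably many rays: continuum many rays -/
def S_CONT : Prop := ∀ (X : Type u) [MetricSpace X] [ProperSpace X]
    (b : X → X → unitInterval → X), IsCCCBicombing b → ∀ (o : X),
  ¬ {ξ : ℝ≥0 → X | IsRay b ξ ∧ ξ 0 = o}.Countable →
  Cardinal.mk {ξ : ℝ≥0 → X // IsRay b ξ ∧ ξ 0 = o} = Cardinal.continuum.{u}

/-- the theorem -/
def S_CARD : Prop := ∀ (X : Type u) [MetricSpace X] [ProperSpace X]
    (b : X → X → unitInterval → X), IsCCCBicombing b → ∀ (G : Type v) [Group G] [MulAction G X]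
    [IsIsometricSMul G X] [CompactSpace (MulAction.orbitRel.Quotient G X)],
  (CompactSpace X ∧ IsEmpty (Boundary b)) ∨
    (NoncompactSpace X ∧ (Nat.card (Boundary b) = 2 ∨
      Cardinal.mk (Boundary b) = Cardinal.continuum.{u}))

end Pool.Agent.Y449.TE
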