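import Pool.Agent.Y449.TE.Stm

/-! Three rays from a point are too many (job TE-THREE; project of helper449, proof by
helper43). -/

set_option autoImplicit false

open Set Filter Topology Metric
open scoped NNReal
open Pool.Agent.Results.MP_1cfa3b_gt.TwoEnds

universe u v

namespace Pool.Agent.Y449.TE.THREE

variable {X : Type u} [MetricSpace X]

/-- a geodesic of the bicombing joins its end points -/
lemma joined_b {b : X → X → unitInterval → X} (hb : IsCCCBicombing b) (x z : X) (S : Set X)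
    (h : ∀ v, b x z v ∈ S) : JoinedIn S x z := by
  have hc : Continuous fun v : unitInterval => b x z v := by
    have : Continuous fun v : unitInterval => ((x, z, v) : X × X × unitInterval) := by fun_prop
    exact hb.continuous.comp this
  exact ⟨⟨⟨fun v => b x z v, hc⟩, hb.zero x z, hb.one x z⟩, h⟩

lemma dist_b {b : X → X → unitInterval → X} (hb : IsCCCBicombing b) (x z : X)
    (v : unitInterval) : dist x (b x z v) = (v : ℝ) * dist x z := by
  have := hb.speed x z 0 v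
  rw [hb.zero] at this
  rw [this]
  simp [abs_of_nonneg (unitInterval.nonneg v)]

lemma dist_ray {b : X → X → unitInterval → X} {ξ : ℝ≥0 → X} (hξ : IsRay b ξ) (s : ℝ≥0) :
    dist (ξ 0) (ξ s) = s := by
  rw [hξ.1]
  simp

theorem main (h1 : S_SEP.{u}) (h2 : S_DIR.{u}) : S_THREE.{u, v} := by
  intro X _ _ b hb G _ _ _ _ o r hinj hr hr0 hfin
  obtain ⟨R, hR, hsep⟩ := h1 X b hb o hfin
  obtain ⟨C, hC⟩ := exists_radius G o
  obtain ⟨T, hT⟩ : ∃ T : ℝ≥0, (T : ℝ) = 2 * R + 1 + |C| := ⟨⟨_, by positivity⟩, rfl⟩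
  obtain ⟨g, hg⟩ := hC (r 0 T)
  have hx : dist o (r 0 T) = T := by
    have := dist_ray (hr 0) T
    rwa [hr0 0] at this
  set q : X := g⁻¹ • o with hq
  have hgq : g • q = o := by rw [hq, smul_inv_smul]
  have hxq : dist (r 0 T) q ≤ C := by
    have := dist_smul g (r 0 T) q
    rw [hgq] at this
    rw [← this]
    exact hg
  have hoq : 2 * R < dist o q := by
    have := dist_triangle o q (r 0 T)
    rw [dist_comm q] at this
    have := le_abs_self C
    linarith
  -- transport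
  have htr : ∀ a c : X, JoinedIn (closedBall q R)ᶜ a c →
      JoinedIn (closedBall o R)ᶜ (g • a) (g • c) := by
    intro a c hac
    obtain ⟨γ, hγ⟩ := hac
    refine ⟨γ.map (isometry_smul X g).continuous, fun t => ?_⟩
    have h3 := hγ t
    rw [mem_compl_iff, mem_closedBall] at h3 ⊢
    show ¬ dist (g • γ t) o ≤ R
    rw [← hgq, dist_smul]
    exact h3
  have ha : ∀ i j : Fin 3, i ≠ j → ∀ s t : ℝ≥0, R < s → R < t →
      ¬ JoinedIn (closedBall q R)ᶜ (g⁻¹ • r i s) (g⁻¹ • r j t) := by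
    intro i j hij s t hs ht hJ
    have h3 := htr _ _ hJ
    rw [smul_inv_smul, smul_inv_smul] at h3
    exact hsep (r i) (r j) (hr i) (hr0 i) (hr j) (hr0 j) (fun h => hij (hinj h)) s t hs ht h3
  let P : Fin 3 → Prop := fun i => ∃ s : ℝ≥0, R < s ∧ JoinedIn (closedBall q R)ᶜ (g⁻¹ • r i s) o
  have hP : ∀ i j : Fin 3, i ≠ j → P i → P j → False := by
    rintro i j hij ⟨s, hs, hs2⟩ ⟨t, ht, ht2⟩
    exact ha i j hij s t hs ht (hs2.trans ht2.symm)
  obtain ⟨i, j, hij, hPi, hPj⟩ : ∃ i j : Fin 3, i ≠ j ∧ ¬ P i ∧ ¬ P j := by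
    by_cases h0 : P 0
    · exact ⟨1, 2, by decide, fun h => hP 1 0 (by decide) h h0, fun h => hP 2 0 (by decide) h h0⟩
    · by_cases h3 : P 1
      · exact ⟨0, 2, by decide, h0, fun h => hP 2 1 (by decide) h h3⟩
      · exact ⟨0, 1, by decide, h0, h3⟩
  have hdir : ∀ i : Fin 3, ¬ P i → ∃ ρ : ℝ≥0 → X, IsRay b ρ ∧ ρ 0 = o ∧
      (∃ t : ℝ≥0, ρ t ∈ closedBall q R) ∧
      ∀ s : ℝ≥0, dist o q + R + 1 < s → ∀ m : ℕ, ∃ n ≥ m,
        JoinedIn (closedBall q R)ᶜ (ρ s) (g⁻¹ • r i (n : ℝ≥0)) := by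
    intro i hi
    refine h2 X b hb o q R (fun n => g⁻¹ • r i (n : ℝ≥0)) hR ?_ ?_ (by linarith)
    · have hl : ∀ n : ℕ, (n : ℝ) + (-dist o q) ≤ dist o (g⁻¹ • r i (n : ℝ≥0)) := by
        intro n
        have h3 := dist_triangle q o (g⁻¹ • r i (n : ℝ≥0))
        have h4 : dist q (g⁻¹ • r i (n : ℝ≥0)) = n := by
          rw [hq, dist_smul]
          have := dist_ray (hr i) (n : ℝ≥0)
          rw [hr0 i] at this
          rw [this]
          simp
        rw [h4, dist_comm q o] at h3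
        linarith
      exact tendsto_atTop_mono hl
        (tendsto_natCast_atTop_atTop.atTop_add (tendsto_const_nhds (x := -dist o q)))
    · filter_upwards [tendsto_natCast_atTop_atTop.eventually (eventually_gt_atTop R)] with n hn
      intro hJ
      exact hi ⟨(n : ℝ≥0), by simpa using hn, hJ.symm⟩
  obtain ⟨ρ, hρ, hρ0, ⟨t, ht⟩, hρj⟩ := hdir i hPi
  obtain ⟨ρ', hρ', hρ0', ⟨t', ht'⟩, hρj'⟩ := hdir j hPj
  have hne : ρ ≠ ρ' := by
    intro heq
    subst heq
    obtain ⟨m, hm⟩ := exists_nat_gt R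
    obtain ⟨s, hs⟩ : ∃ s : ℝ≥0, (s : ℝ) = dist o q + R + 2 := ⟨⟨_, by positivity⟩, rfl⟩
    obtain ⟨n, hn, hnJ⟩ := hρj s (by rw [hs]; linarith) m
    obtain ⟨n', hn', hnJ'⟩ := hρj' s (by rw [hs]; linarith) m
    have e1 : R < ((n : ℝ≥0) : ℝ) := by
      have : (m : ℝ) ≤ n := by exact_mod_cast hn
      simp only [NNReal.coe_natCast]
      linarith
    have e2 : R < ((n' : ℝ≥0) : ℝ) := by
      have : (m : ℝ) ≤ n' := by exact_mod_cast hn'
      simp only [NNReal.coe_natCast]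
      linarith
    exact ha i j hij _ _ e1 e2 (hnJ.symm.trans hnJ')
  have hsub : closedBall q R ⊆ (closedBall o R)ᶜ := by
    intro z hz
    rw [mem_closedBall] at hz
    rw [mem_compl_iff, mem_closedBall, not_le]
    have := dist_triangle o z q
    rw [dist_comm o z] at this
    linarith
  have hjoin : ∀ z ∈ closedBall q R, JoinedIn (closedBall q R) q z := by
    intro z hz
    apply joined_b hb
    intro v
    rw [mem_closedBall] at hz ⊢
    rw [dist_comm, dist_b hb]
    rw [dist_comm] at hz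
    calc (v : ℝ) * dist q z ≤ 1 * dist q z :=
          mul_le_mul_of_nonneg_right (unitInterval.le_one v) dist_nonneg
      _ ≤ R := by linarith
  have hbig : ∀ (ρ : ℝ≥0 → X), IsRay b ρ → ρ 0 = o → ∀ t : ℝ≥0, ρ t ∈ closedBall q R →
      R < (t : ℝ) := by
    intro ρ hρ hρ0 t ht
    rw [mem_closedBall] at ht
    have h3 := dist_ray hρ t
    rw [hρ0] at h3
    have h4 := dist_triangle o (ρ t) q
    linarith
  exact hsep ρ ρ' hρ hρ0 hρ' hρ0' hne t t' (hbig ρ hρ hρ0 t ht) (hbig ρ' hρ' hρ0' t' ht')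
    (((hjoin _ ht).symm.trans (hjoin _ ht')).mono hsub)

end Pool.Agent.Y449.TE.THREE
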