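import Pool.Agent.Y449.TE.Stm

/-!
Project TE: assembly of the trichotomy (helper449).
-/

set_option autoImplicit false

open Set Filter Topology Metric
open scoped NNReal
open Pool.Agent.Results.MP_1cfa3b_gt.TwoEnds

universe u v

namespace Pool.Agent.Y449.TE.TRI

/-- finitely many boundary points: finitely many rays from a point -/
theorem rays_finite (hU : S_UNIQ.{u}) {X : Type u} [MetricSpace X]
    (b : X → X → unitInterval → X) (hb : IsCCCBicombing b) [Finite (Boundary b)] (o : X) :
    {ξ : ℝ≥0 → X | IsRay b ξ ∧ ξ 0 = o}.Finite := by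
  let f : {ξ : ℝ≥0 → X | IsRay b ξ ∧ ξ 0 = o} → Boundary b := fun ξ =>
    Quotient.mk (rayEquiv b) ⟨ξ.1, ξ.2.1⟩
  have hf : Function.Injective f := by
    intro ξ η h
    have h' := Quotient.exact h
    obtain ⟨D, hD⟩ := h'
    apply Subtype.ext
    exact hU X b hb ξ.1 η.1 ξ.2.1 η.2.1 (ξ.2.2.trans η.2.2.symm) D hD
  have := Finite.of_injective f hf
  exact Set.toFinite _

theorem main (hU : S_UNIQ.{u}) (hE : S_EQUIV.{u}) (h3 : S_THREE.{u, v}) : S_TRI.{u, v} := by
  intro X _ _ b hb G _ _ _ _
  rcases result b hb G with h | ⟨hX, hN⟩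
  · exact Or.inl h
  · right
    refine ⟨hX, ?_⟩
    rcases finite_or_infinite (Boundary b) with hfin | hinf
    · left
      have h1 : 1 < Nat.card (Boundary b) := Finite.one_lt_card
      by_contra hne
      have h2 : 3 ≤ Nat.card (Boundary b) := by omega
      -- three distinct points
      have e := Finite.equivFin (Boundary b)
      let c : Fin 3 → Boundary b := fun i => e.symm (Fin.castLE h2 i)
      have hc : Function.Injective c :=
        e.symm.injective.comp (Fin.castLE_injective h2)
      obtain ⟨o⟩ : Nonempty X := by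
        obtain ⟨q⟩ : Nonempty (Boundary b) := inferInstance
        obtain ⟨ξ, -⟩ := Quotient.exists_rep q
        exact ⟨ξ.1 0⟩
      have hr : ∀ i : Fin 3, ∃ η : ℝ≥0 → X, ∃ h : IsRay b η, η 0 = o ∧
          Quotient.mk (rayEquiv b) ⟨η, h⟩ = c i := by
        intro i
        obtain ⟨ξ, hξ⟩ := Quotient.exists_rep (c i)
        obtain ⟨η, hη, hη0, D, hD⟩ := hE X b hb ξ.1 o ξ.2
        refine ⟨η, hη, hη0, ?_⟩
        rw [← hξ]
        apply Quotient.sound
        exact ⟨D, fun t => by rw [dist_comm]; exact hD t⟩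
      choose r hr1 hr2 hr3 using hr
      refine h3 X b hb G o r ?_ hr1 hr2 (rays_finite hU b hb o)
      intro i j hij
      apply hc
      rw [← hr3 i, ← hr3 j]
      congr 1
      exact Subtype.ext hij
    · exact Or.inr hinf

end Pool.Agent.Y449.TE.TRI
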